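import Mathlib

/-!
# `ν`-regular graphs minimise the spanning tree cycle intersection number

For a spanning tree `T` and a non-tree edge `uv`, send `uv` to the pair consisting of the first
and the last edge of the tree path from `u` to `v`.  This map is injective, and two tree-cycles
whose pairs meet share an edge.  Convexity gives the lower bound.
-/

namespace Pool.Agent.Results.MP_648063_co.NuRegularMinimal

open SimpleGraph

/-- The edge set of the tree-cycle of `e`: the edges lying on a cycle of `T ∪ {e}`. -/
def treeCycle {V : Type} (T : SimpleGraph V) (e : Sym2 V) : Set (Sym2 V) :=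
  {f | ∃ (v : V) (c : (T ⊔ fromEdgeSet {e}).Walk v v), c.IsCycle ∧ f ∈ c.edges}

/-- The tree-cycles of the spanning tree `T` of `G`. -/
def treeCycles {V : Type} (G T : SimpleGraph V) : Set (Set (Sym2 V)) :=
  {C | ∃ e ∈ G.edgeSet \ T.edgeSet, C = treeCycle T e}

/-- The number of unordered pairs of distinct tree-cycles of `T` with an edge in common. -/
noncomputable def capTree {V : Type} (G T : SimpleGraph V) : ℕ :=
  Set.ncard {P : Set (Set (Sym2 V)) | ∃ C ∈ treeCycles G T, ∃ C' ∈ treeCycles G T,
    C ≠ C' ∧ (C ∩ C').Nonempty ∧ P = {C, C'}}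

/-- The intersection number of `G`: the minimum of `capTree G T` over the spanning trees `T`. -/
noncomputable def capNum {V : Type} (G : SimpleGraph V) : ℕ :=
  sInf {k | ∃ T : SimpleGraph V, T ≤ G ∧ T.IsTree ∧ k = capTree G T}

/-- The cyclomatic number `m - n + 1` of a connected graph. -/
noncomputable def nu {V : Type} [Fintype V] (G : SimpleGraph V) : ℕ :=
  G.edgeSet.ncard + 1 - Fintype.card V

/-- `G` is `ν`-regular: it has a universal vertex `u` and all other vertices have degree
`q + 1` or `q + 2`, where `q` is the quotient of `2ν` by `n - 1`. -/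
def IsNuRegular {V : Type} [Fintype V] (G : SimpleGraph V) : Prop :=
  ∃ u : V, (∀ v, v ≠ u → G.Adj u v) ∧ ∀ v, v ≠ u →
    (G.neighborSet v).ncard = 2 * nu G / (Fintype.card V - 1) + 1 ∨
    (G.neighborSet v).ncard = 2 * nu G / (Fintype.card V - 1) + 2

section lower

variable {V : Type} {T : SimpleGraph V}

theorem mem_treeCycle_of_mem_path {u v : V} (huv : u ≠ v) (hadj : ¬ T.Adj u v)
    (p : T.Walk u v) (hp : p.IsPath) :
    (∀ f ∈ p.edges, f ∈ treeCycle T s(u, v)) ∧ s(u, v) ∈ treeCycle T s(u, v) := by
  have h1 : T ≤ T ⊔ fromEdgeSet {s(u, v)} := le_sup_left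
  have h2 : (T ⊔ fromEdgeSet {s(u, v)}).Adj v u := by
    rw [sup_adj]
    right
    rw [fromEdgeSet_adj]
    exact ⟨by rw [Sym2.eq_swap]; rfl, huv.symm⟩
  have h3 : (Walk.cons h2 (p.mapLe h1)).IsCycle := by
    rw [Walk.cons_isCycle_iff]
    refine ⟨(Walk.isPath_mapLe h1).2 hp, ?_⟩
    intro h
    have h4 : s(v, u) ∈ p.edges := by simpa using h
    have := p.adj_of_mem_edges h4
    exact hadj this.symm
  constructor
  · intro f hf
    refine ⟨v, Walk.cons h2 (p.mapLe h1), h3, ?_⟩
    simp [hf]
  · refine ⟨v, Walk.cons h2 (p.mapLe h1), h3, ?_⟩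
    simp [Sym2.eq_swap]

theorem treeCycle_subset (e : Sym2 V) : treeCycle T e ⊆ T.edgeSet ∪ {e} := by
  rintro f ⟨v, c, _, hf⟩
  have := c.edges_subset_edgeSet hf
  rw [edgeSet_sup] at this
  rcases this with h | h
  · exact Or.inl h
  · right
    rw [edgeSet_fromEdgeSet] at h
    exact h.1

/-- The first and last edge of the tree path joining the ends of a non-tree edge. -/
theorem exists_ends (hT : T.Connected) {u v : V} (huv : u ≠ v) (hadj : ¬ T.Adj u v) :
    ∃ a b, T.Adj u a ∧ T.Adj b v ∧ T.dist a v + 1 = T.dist u v ∧ T.dist u b + 1 = T.dist u v ∧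
      T.dist a b + 2 = T.dist u v ∧ s(u, a) ∈ treeCycle T s(u, v) ∧
      s(b, v) ∈ treeCycle T s(u, v) ∧ s(u, v) ∈ treeCycle T s(u, v) := by
  obtain ⟨p, hp, hlen⟩ := hT.exists_path_of_dist u v
  obtain ⟨hmem, hself⟩ := mem_treeCycle_of_mem_path huv hadj p hp
  cases p with
  | nil => exact absurd rfl huv
  | @cons _ a _ h p' =>
    obtain ⟨b, q, h', hq⟩ := Walk.exists_cons_eq_concat h p'
    have hl1 : (Walk.cons h p').length = q.length + 1 := by rw [hq, Walk.length_concat]
    rw [hq] at hmem
    cases q with
    | nil => exact absurd h' hadj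
    | @cons _ a' _ h'' q' =>
      rw [Walk.concat_cons] at hq
      have haa : a = a' := by
        injection hq
      subst haa
      have e1 : T.dist a v ≤ p'.length := T.dist_le p'
      have e2 : T.dist u b ≤ q'.length + 1 := by
        have := T.dist_le (Walk.cons h'' q')
        simpa using this
      have e3 : T.dist a b ≤ q'.length := T.dist_le q'
      have e4 : T.dist u a = 1 := dist_eq_one_iff_adj.2 h
      have e5 : T.dist b v = 1 := dist_eq_one_iff_adj.2 h'
      have t1 : T.dist u v ≤ T.dist u a + T.dist a v := hT.dist_triangle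
      have t2 : T.dist u v ≤ T.dist u b + T.dist b v := hT.dist_triangle
      have t3 : T.dist a v ≤ T.dist a b + T.dist b v := hT.dist_triangle
      simp only [Walk.length_cons] at hlen hl1
      refine ⟨a, b, h, h', by omega, by omega, by omega, ?_, ?_, hself⟩
      · apply hmem
        simp
      · apply hmem
        simp

theorem choose_two_ge (q d : ℕ) : (q.choose 2 : ℤ) + q * ((d : ℤ) - q) ≤ (d.choose 2 : ℤ) := by
  have hc : ∀ k : ℕ, (2 : ℤ) * (k.choose 2 : ℤ) = k * ((k : ℤ) - 1) := by
    intro k
    induction k with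
    | zero => simp
    | succ k ih =>
      rw [Nat.choose_succ_succ' k 1]
      push_cast
      rw [mul_add, ih]
      simp
      ring
  have h1 := hc q
  have h2 := hc d
  have h3 : 0 ≤ ((d : ℤ) - q) * ((d : ℤ) - q - 1) := by
    rcases le_or_gt ((d : ℤ) - q) 0 with h | h
    · exact mul_nonneg_of_nonpos_of_nonpos h (by omega)
    · exact mul_nonneg (by omega) (by omega)
  nlinarith

theorem choose_two_eq (q d : ℕ) (h : d = q ∨ d = q + 1) :
    (d.choose 2 : ℤ) = (q.choose 2 : ℤ) + q * ((d : ℤ) - q) := by
  rcases h with rfl | rfl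
  · simp
  · rw [Nat.choose_succ_succ' q 1]
    push_cast
    simp
    ring

/-- Convexity. -/
theorem sum_choose_ge {ι : Type} (s : Finset ι) (d : ι → ℕ) (N : ℕ)
    (hd : ∑ t ∈ s, d t = N) :
    s.card * (N / s.card).choose 2 + (N / s.card) * (N % s.card) ≤ ∑ t ∈ s, (d t).choose 2 := by
  set q := N / s.card with hq
  have h1 : ∑ t ∈ s, ((q.choose 2 : ℤ) + q * ((d t : ℤ) - q)) ≤ ∑ t ∈ s, ((d t).choose 2 : ℤ) :=
    Finset.sum_le_sum (fun t _ => choose_two_ge q (d t))
  rw [Finset.sum_add_distrib, ← Finset.mul_sum, Finset.sum_sub_distrib, Finset.sum_const,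
    Finset.sum_const] at h1
  have h2 : (∑ t ∈ s, (d t : ℤ)) = N := by exact_mod_cast hd
  rw [h2] at h1
  have h3 : (N : ℤ) - s.card * q = (N % s.card : ℕ) := by
    have := Nat.div_add_mod N s.card
    rw [← hq] at this
    have h4 : ((s.card * q + N % s.card : ℕ) : ℤ) = (N : ℤ) := by exact_mod_cast this
    push_cast at h4 ⊢
    linarith
  simp only [nsmul_eq_mul] at h1
  rw [h3] at h1
  exact_mod_cast h1

end lower

open Classical in
/-- The lower bound for one spanning tree. -/
theorem capTree_ge {V : Type} [Fintype V] (G T : SimpleGraph V) (hTG : T ≤ G) (hT : T.IsTree) :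
    (Fintype.card V - 1) * (2 * nu G / (Fintype.card V - 1)).choose 2 +
      (2 * nu G / (Fintype.card V - 1)) * (2 * nu G % (Fintype.card V - 1)) ≤ capTree G T := by
  have : Nonempty V := hT.1.nonempty
  -- the non-tree edges
  set N : Finset (Sym2 V) := (G.edgeSet \ T.edgeSet).toFinset with hN
  have hNmem : ∀ e, e ∈ N ↔ e ∈ G.edgeSet \ T.edgeSet := by
    intro e
    rw [hN, Set.mem_toFinset]
  have key : ∀ e, ∃ u v a b : V, e ∈ N → (e = s(u, v) ∧ ¬ T.Adj u v ∧ T.Adj u a ∧ T.Adj b v ∧
      T.dist a v + 1 = T.dist u v ∧ T.dist u b + 1 = T.dist u v ∧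
      T.dist a b + 2 = T.dist u v ∧ s(u, a) ∈ treeCycle T e ∧
      s(b, v) ∈ treeCycle T e ∧ e ∈ treeCycle T e) := by
    intro e
    induction e using Sym2.ind with
    | _ u v =>
      by_cases he : s(u, v) ∈ N
      · have he' := (hNmem _).1 he
        have h1 : ¬ T.Adj u v := he'.2
        have h2 : u ≠ v := G.ne_of_adj he'.1
        obtain ⟨a, b, h⟩ := exists_ends hT.1 h2 h1
        exact ⟨u, v, a, b, fun _ => ⟨rfl, h1, h⟩⟩
      · exact ⟨u, u, u, u, fun h => absurd h he⟩
  choose u v a b huv using key
  -- the pair of end edges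
  let φ : Sym2 V → Finset (Sym2 V) := fun e => {s(u e, a e), s(b e, v e)}
  have hne : ∀ e ∈ N, s(u e, a e) ≠ s(b e, v e) := by
    intro e he h
    obtain ⟨h1, h2, h3, h4, h5, h6, h7, h8, h9, h10⟩ := huv e he
    rw [Sym2.eq_iff] at h
    rcases h with ⟨e1, e2⟩ | ⟨e1, e2⟩
    · apply h2
      rw [e1]
      exact h4
    · rw [e1] at h5
      simp at h5
  have hcard : ∀ e ∈ N, (φ e).card = 2 := fun e he => Finset.card_pair (hne e he)
  have hsub : ∀ e ∈ N, φ e ⊆ T.edgeFinset := by
    intro e he t ht
    obtain ⟨h1, h2, h3, h4, h5, h6, h7, h8, h9, h10⟩ := huv e he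
    simp only [φ, Finset.mem_insert, Finset.mem_singleton] at ht
    rw [mem_edgeFinset]
    rcases ht with rfl | rfl
    · exact h3
    · exact h4
  have hcyc : ∀ e ∈ N, ∀ t ∈ φ e, t ∈ treeCycle T e := by
    intro e he t ht
    obtain ⟨h1, h2, h3, h4, h5, h6, h7, h8, h9, h10⟩ := huv e he
    simp only [φ, Finset.mem_insert, Finset.mem_singleton] at ht
    rcases ht with rfl | rfl
    · exact h8
    · exact h9
  have hinj : ∀ e ∈ N, ∀ e' ∈ N, φ e = φ e' → e = e' := by
    intro e he e' he' hφ
    obtain ⟨h1, h2, h3, h4, h5, h6, h7, -, -, -⟩ := huv e he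
    obtain ⟨g1, g2, g3, g4, g5, g6, g7, -, -, -⟩ := huv e' he'
    have hn := hne e he
    have hn' := hne e' he'
    rw [h1, g1]
    have c1 : s(u e, a e) ∈ φ e' := by rw [← hφ]; simp [φ]
    have c2 : s(b e, v e) ∈ φ e' := by rw [← hφ]; simp [φ]
    simp only [φ, Finset.mem_insert, Finset.mem_singleton] at c1 c2
    have d1 : T.dist (u e) (v e) = T.dist (v e) (u e) := dist_comm
    have d2 : T.dist (u e) (b e) = T.dist (b e) (u e) := dist_comm
    have d3 : T.dist (a e) (v e) = T.dist (v e) (a e) := dist_comm
    have d4 : T.dist (a e) (b e) = T.dist (b e) (a e) := dist_comm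
    rcases c1 with c1 | c1 <;> rcases c2 with c2 | c2
    · exact absurd (c1.trans c2.symm) hn
    · rw [Sym2.eq_iff] at c1 c2
      rcases c1 with ⟨x1, x2⟩ | ⟨x1, x2⟩ <;> rcases c2 with ⟨y1, y2⟩ | ⟨y1, y2⟩ <;>
        simp only [← x1, ← x2, ← y1, ← y2] at g5 g6 g7 <;> first | omega | rw [x1, y2]
    · rw [Sym2.eq_iff] at c1 c2
      rcases c1 with ⟨x1, x2⟩ | ⟨x1, x2⟩ <;> rcases c2 with ⟨y1, y2⟩ | ⟨y1, y2⟩ <;>
        simp only [← x1, ← x2, ← y1, ← y2] at g5 g6 g7 <;> first | omega | (rw [x1, y2, Sym2.eq_swap])
    · exact absurd (c1.trans c2.symm) hn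
  -- counting
  let Nt : Sym2 V → Finset (Sym2 V) := fun t => N.filter (fun e => t ∈ φ e)
  have hsum : ∑ t ∈ T.edgeFinset, (Nt t).card = 2 * N.card := by
    have h1 : ∀ t, (Nt t).card = ∑ e ∈ N, if t ∈ φ e then 1 else 0 := by
      intro t
      simp only [Nt]
      rw [Finset.card_filter]
    simp only [h1]
    rw [Finset.sum_comm]
    have h2 : ∀ e ∈ N, (∑ t ∈ T.edgeFinset, if t ∈ φ e then 1 else 0) = 2 := by
      intro e he
      rw [← Finset.card_filter, Finset.filter_mem_eq_inter,
        Finset.inter_eq_right.2 (hsub e he), hcard e he]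
    rw [Finset.sum_congr rfl h2]
    simp [mul_comm]
  have hcE : T.edgeFinset.card + 1 = Fintype.card V := by
    exact hT.card_edgeFinset
  have hcN : N.card = nu G := by
    have h1 : (G.edgeSet \ T.edgeSet).ncard = G.edgeSet.ncard - T.edgeSet.ncard :=
      Set.ncard_sdiff (edgeSet_mono hTG) (Set.toFinite _)
    have h2 : N.card = (G.edgeSet \ T.edgeSet).ncard := by
      rw [hN, Set.ncard_eq_toFinset_card']
    have h3 : T.edgeSet.ncard = T.edgeFinset.card := by
      rw [Set.ncard_eq_toFinset_card']
      rfl
    rw [h2, h1, h3]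
    unfold nu
    omega
  -- the pairs of edges sharing an end edge
  let B : Finset (Finset (Sym2 V)) := T.edgeFinset.biUnion (fun t => (Nt t).powersetCard 2)
  have hB : B.card = ∑ t ∈ T.edgeFinset, ((Nt t).card).choose 2 := by
    simp only [B]
    rw [Finset.card_biUnion]
    · exact Finset.sum_congr rfl (fun t _ => Finset.card_powersetCard _ _)
    · intro t _ t' _ htt'
      rw [Function.onFun, Finset.disjoint_left]
      intro P hP hP'
      rw [Finset.mem_powersetCard] at hP hP'
      obtain ⟨e, e', hee, rfl⟩ := Finset.card_eq_two.1 hP.2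
      have m1 := hP.1 (Finset.mem_insert_self e {e'})
      have m2 := hP.1 (Finset.mem_insert_of_mem (Finset.mem_singleton_self e'))
      have m3 := hP'.1 (Finset.mem_insert_self e {e'})
      have m4 := hP'.1 (Finset.mem_insert_of_mem (Finset.mem_singleton_self e'))
      simp only [Nt, Finset.mem_filter] at m1 m2 m3 m4
      have k1 : ({t, t'} : Finset (Sym2 V)) = φ e := by
        apply Finset.eq_of_subset_of_card_le
        · intro x hx
          simp only [Finset.mem_insert, Finset.mem_singleton] at hx
          rcases hx with rfl | rfl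
          · exact m1.2
          · exact m3.2
        · rw [hcard e m1.1, Finset.card_pair htt']
      have k2 : ({t, t'} : Finset (Sym2 V)) = φ e' := by
        apply Finset.eq_of_subset_of_card_le
        · intro x hx
          simp only [Finset.mem_insert, Finset.mem_singleton] at hx
          rcases hx with rfl | rfl
          · exact m2.2
          · exact m4.2
        · rw [hcard e' m2.1, Finset.card_pair htt']
      exact hee (hinj e m1.1 e' m2.1 (k1.symm.trans k2))
  -- the map to pairs of tree-cycles
  have hTinj : ∀ e ∈ N, ∀ e' ∈ N, treeCycle T e = treeCycle T e' → e = e' := by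
    intro e he e' he' h
    have h1 : e ∈ treeCycle T e := (huv e he).2.2.2.2.2.2.2.2.2
    rw [h] at h1
    rcases treeCycle_subset e' h1 with h2 | h2
    · exact absurd h2 ((hNmem e).1 he).2
    · exact h2
  have hle : B.card ≤ capTree G T := by
    unfold capTree
    rw [← Set.ncard_coe_finset]
    refine Set.ncard_le_ncard_of_injOn
      (fun P : Finset (Sym2 V) => (treeCycle T) '' (P : Set (Sym2 V))) ?_ ?_ (Set.toFinite _)
    · intro P hP
      simp only [B, Finset.coe_biUnion, Set.mem_iUnion, Finset.mem_coe,
        Finset.mem_powersetCard] at hP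
      obtain ⟨t, _, hPt, hPc⟩ := hP
      obtain ⟨e, e', hee, rfl⟩ := Finset.card_eq_two.1 hPc
      have m1 := hPt (Finset.mem_insert_self e {e'})
      have m2 := hPt (Finset.mem_insert_of_mem (Finset.mem_singleton_self e'))
      simp only [Nt, Finset.mem_filter] at m1 m2
      refine ⟨treeCycle T e, ⟨e, (hNmem e).1 m1.1, rfl⟩, treeCycle T e',
        ⟨e', (hNmem e').1 m2.1, rfl⟩, fun h => hee (hTinj e m1.1 e' m2.1 h),
        ⟨t, hcyc e m1.1 t m1.2, hcyc e' m2.1 t m2.2⟩, ?_⟩
      simp only [Finset.coe_insert, Finset.coe_singleton, Set.image_insert_eq, Set.image_singleton]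
    · intro P hP P' hP' h
      have hPN : ∀ P ∈ (B : Set (Finset (Sym2 V))), ∀ e ∈ P, e ∈ N := by
        intro P hP e he
        simp only [B, Finset.coe_biUnion, Set.mem_iUnion, Finset.mem_coe,
          Finset.mem_powersetCard] at hP
        obtain ⟨t, _, hPt, _⟩ := hP
        exact (Finset.mem_filter.1 (hPt he)).1
      ext e
      constructor
      · intro he
        have h1 : treeCycle T e ∈ (treeCycle T) '' (P : Set (Sym2 V)) := ⟨e, he, rfl⟩
        rw [show (treeCycle T) '' (P : Set (Sym2 V)) = (treeCycle T) '' (P' : Set (Sym2 V))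
          from h] at h1
        obtain ⟨e', he', h2⟩ := h1
        rw [← hTinj e' (hPN P' hP' e' he') e (hPN P hP e he) h2]
        exact he'
      · intro he
        have h1 : treeCycle T e ∈ (treeCycle T) '' (P' : Set (Sym2 V)) := ⟨e, he, rfl⟩
        rw [show (treeCycle T) '' (P' : Set (Sym2 V)) = (treeCycle T) '' (P : Set (Sym2 V))
          from h.symm] at h1
        obtain ⟨e', he', h2⟩ := h1
        rw [← hTinj e' (hPN P hP e' he') e (hPN P' hP' e he) h2]
        exact he'
  have hfin := sum_choose_ge T.edgeFinset (fun t => (Nt t).card) _ hsum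
  have hcE' : T.edgeFinset.card = Fintype.card V - 1 := by omega
  rw [hcE', hcN] at hfin
  exact hfin.trans (hB ▸ hle)

/-- **The lower bound.** -/
theorem capNum_ge {V : Type} [Fintype V] (G : SimpleGraph V) (hG : G.Connected) :
    (Fintype.card V - 1) * (2 * nu G / (Fintype.card V - 1)).choose 2 +
      (2 * nu G / (Fintype.card V - 1)) * (2 * nu G % (Fintype.card V - 1)) ≤ capNum G := by
  obtain ⟨T, hT, hT2⟩ := hG.exists_isTree_le
  have hne : {k | ∃ T : SimpleGraph V, T ≤ G ∧ T.IsTree ∧ k = capTree G T}.Nonempty :=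
    ⟨_, T, hT, hT2, rfl⟩
  obtain ⟨T', h1, h2, h3⟩ := Nat.sInf_mem hne
  unfold capNum
  rw [h3]
  exact capTree_ge G T' h1 h2


section upper

variable {V : Type} [Fintype V]

/-- The star centred at `u`. -/
def star (u : V) : SimpleGraph V where
  Adj a b := a ≠ b ∧ (a = u ∨ b = u)
  symm := ⟨fun _ _ h => ⟨h.1.symm, h.2.symm⟩⟩
  loopless := ⟨fun _ h => h.1 rfl⟩

omit [Fintype V] in
theorem star_connected (u : V) : (star u).Connected := by
  have : Nonempty V := ⟨u⟩
  have h : ∀ x, (star u).Reachable x u := by
    intro x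
    by_cases hx : x = u
    · subst hx
      exact Reachable.refl _
    · exact Adj.reachable ⟨hx, Or.inr rfl⟩
  exact ⟨fun x y => (h x).trans (h y).symm⟩

/-- An edge at `u` of a cycle has its other end adjacent to a vertex different from `u`. -/
theorem cycle_other {K : SimpleGraph V} {u x w : V} {c : K.Walk w w} (hc : c.IsCycle)
    (hx : s(u, x) ∈ c.edges) : ∃ y, y ≠ u ∧ K.Adj x y := by
  by_contra hcon
  push Not at hcon
  have hxs : x ∈ c.support := c.snd_mem_support_of_mem_edges hx
  have h2 := hc.ncard_neighborSet_toSubgraph_eq_two hxs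
  have h3 : c.toSubgraph.neighborSet x ⊆ {u} := by
    intro y hy
    by_contra hyu
    exact hcon y hyu (c.toSubgraph.adj_sub hy)
  have := Set.ncard_le_ncard h3 (Set.toFinite _)
  rw [Set.ncard_singleton] at this
  omega

theorem star_isTree (u : V) : (star u).IsTree := by
  refine ⟨star_connected u, ?_⟩
  intro w c hc
  have hne : c.edges ≠ [] := by
    intro h
    have h1 := congrArg List.length h
    rw [Walk.length_edges, List.length_nil] at h1
    have h2 := hc.three_le_length
    omega
  obtain ⟨f, hf⟩ := List.exists_mem_of_ne_nil _ hne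
  have hfe := c.edges_subset_edgeSet hf
  induction f using Sym2.ind with
  | _ a b =>
    rw [mem_edgeSet] at hfe
    rcases hfe with ⟨hab, rfl | rfl⟩
    · obtain ⟨y, hy, hby⟩ := cycle_other hc hf
      rcases hby.2 with h | h
      · exact hab h.symm
      · exact hy h
    · rw [Sym2.eq_swap] at hf
      obtain ⟨y, hy, hby⟩ := cycle_other hc hf
      rcases hby.2 with h | h
      · exact hab h
      · exact hy h

/-- The tree-cycle of `ab` in a star is contained in the triangle `u a b`. -/
theorem star_treeCycle {u a b : V} {f : Sym2 V} (hf : f ∈ treeCycle (star u) s(a, b)) :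
    f = s(a, b) ∨ f = s(u, a) ∨ f = s(u, b) := by
  by_contra hcon
  push Not at hcon
  obtain ⟨w, c, hc, hfc⟩ := hf
  have hfe := c.edges_subset_edgeSet hfc
  rw [edgeSet_sup, edgeSet_fromEdgeSet] at hfe
  have key : ∀ x, f = s(u, x) → x ≠ u → False := by
    intro x hx hxu
    subst hx
    obtain ⟨y, hy, hxy⟩ := cycle_other hc hfc
    rw [sup_adj] at hxy
    rcases hxy with h | h
    · rcases h.2 with h' | h'
      · exact hxu h'
      · exact hy h'
    · rw [fromEdgeSet_adj] at h
      have h1 : s(x, y) = s(a, b) := h.1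
      rw [Sym2.eq_iff] at h1
      rcases h1 with ⟨h1, _⟩ | ⟨h1, _⟩
      · exact hcon.2.1 (by rw [h1])
      · exact hcon.2.2 (by rw [h1])
  rcases hfe with h | h
  · induction f using Sym2.ind with
    | _ x y =>
      rw [mem_edgeSet] at h
      rcases h with ⟨hxy, rfl | rfl⟩
      · exact key y rfl hxy.symm
      · exact key x Sym2.eq_swap hxy
  · exact hcon.1 h.1

open Classical in
/-- The upper bound given by the star. -/
theorem capTree_star_le (G : SimpleGraph V) (u : V) (hu : ∀ v, v ≠ u → G.Adj u v) :
    capTree G (star u) ≤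
      ∑ v ∈ Finset.univ.erase u, ((G.neighborSet v).ncard - 1).choose 2 := by
  -- the non-tree edges at `v`
  let M : V → Finset (Sym2 V) := fun v => (G.incidenceFinset v).erase s(u, v)
  have hM : ∀ v ∈ Finset.univ.erase u, (M v).card = (G.neighborSet v).ncard - 1 := by
    intro v hv
    have hvu : v ≠ u := Finset.ne_of_mem_erase hv
    simp only [M]
    rw [Finset.card_erase_of_mem, card_incidenceFinset_eq_degree]
    · congr 1
      rw [← card_neighborSet_eq_degree, Set.ncard_eq_toFinset_card', Set.toFinset_card]
    · rw [mem_incidenceFinset]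
      exact ⟨hu v hvu, by simp⟩
  calc capTree G (star u)
      ≤ ((Finset.univ.erase u).biUnion (fun v => (M v).powersetCard 2)).card := by
        unfold capTree
        rw [← Set.ncard_coe_finset]
        refine (Set.ncard_le_ncard (t := (fun P : Finset (Sym2 V) =>
          (treeCycle (star u)) '' (P : Set (Sym2 V))) ''
          (((Finset.univ.erase u).biUnion (fun v => (M v).powersetCard 2) :
            Finset (Finset (Sym2 V))) : Set (Finset (Sym2 V)))) ?_ (Set.toFinite _)).trans
          (Set.ncard_image_le (Set.toFinite _))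
        rintro P ⟨C, ⟨e, he, rfl⟩, C', ⟨e', he', rfl⟩, hCC, ⟨f, hf, hf'⟩, rfl⟩
        have hee : e ≠ e' := fun h => hCC (by rw [h])
        -- the common edge is `ux`
        have main : ∃ x, x ≠ u ∧ x ∈ e ∧ x ∈ e' := by
          induction e using Sym2.ind with
          | _ a b =>
            induction e' using Sym2.ind with
            | _ a' b' =>
              have hab : ∀ p q : V, s(p, q) ∈ G.edgeSet \ (star u).edgeSet → p ≠ u ∧ q ≠ u := by
                intro p q hpq
                have h1 : p ≠ q := G.ne_of_adj hpq.1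
                exact ⟨fun h => hpq.2 ⟨h1, Or.inl h⟩, fun h => hpq.2 ⟨h1, Or.inr h⟩⟩
              obtain ⟨ha, hb⟩ := hab a b he
              obtain ⟨ha', hb'⟩ := hab a' b' he'
              have k1 := star_treeCycle hf
              have k2 := star_treeCycle hf'
              rcases k1 with k1 | k1 | k1 <;> rcases k2 with k2 | k2 | k2
              · exact absurd (k1.symm.trans k2) hee
              · exfalso
                have := k1.symm.trans k2
                rw [Sym2.eq_iff] at this
                rcases this with ⟨h, _⟩ | ⟨_, h⟩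
                · exact ha h
                · exact hb h
              · exfalso
                have := k1.symm.trans k2
                rw [Sym2.eq_iff] at this
                rcases this with ⟨h, _⟩ | ⟨_, h⟩
                · exact ha h
                · exact hb h
              · exfalso
                have := k2.symm.trans k1
                rw [Sym2.eq_iff] at this
                rcases this with ⟨h, _⟩ | ⟨_, h⟩
                · exact ha' h
                · exact hb' h
              · have := k1.symm.trans k2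
                rw [Sym2.congr_right] at this
                exact ⟨a, ha, by simp, by simp [this]⟩
              · have := k1.symm.trans k2
                rw [Sym2.congr_right] at this
                exact ⟨a, ha, by simp, by simp [this]⟩
              · exfalso
                have := k2.symm.trans k1
                rw [Sym2.eq_iff] at this
                rcases this with ⟨h, _⟩ | ⟨_, h⟩
                · exact ha' h
                · exact hb' h
              · have := k1.symm.trans k2
                rw [Sym2.congr_right] at this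
                exact ⟨b, hb, by simp, by simp [this]⟩
              · have := k1.symm.trans k2
                rw [Sym2.congr_right] at this
                exact ⟨b, hb, by simp, by simp [this]⟩
        obtain ⟨x, hxu, hxe, hxe'⟩ := main
        have hin : ∀ e'' ∈ G.edgeSet \ (star u).edgeSet, x ∈ e'' → e'' ∈ M x := by
          intro e'' h1 h2
          simp only [M]
          rw [Finset.mem_erase, mem_incidenceFinset]
          refine ⟨?_, h1.1, h2⟩
          rintro rfl
          exact h1.2 ⟨hxu.symm, Or.inl rfl⟩
        refine ⟨{e, e'}, ?_, ?_⟩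
        · simp only [Finset.coe_biUnion, Set.mem_iUnion, Finset.mem_coe, Finset.mem_powersetCard]
          refine ⟨x, ?_, ?_, Finset.card_pair hee⟩
          · exact Finset.mem_erase.2 ⟨hxu, Finset.mem_univ _⟩
          · intro y hy
            simp only [Finset.mem_insert, Finset.mem_singleton] at hy
            rcases hy with rfl | rfl
            · exact hin _ he hxe
            · exact hin _ he' hxe'
        · simp only [Finset.coe_insert, Finset.coe_singleton, Set.image_insert_eq,
            Set.image_singleton]
    _ ≤ ∑ v ∈ Finset.univ.erase u, ((M v).powersetCard 2).card := Finset.card_biUnion_le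
    _ = ∑ v ∈ Finset.univ.erase u, ((G.neighborSet v).ncard - 1).choose 2 := by
        refine Finset.sum_congr rfl (fun v hv => ?_)
        rw [Finset.card_powersetCard, hM v hv]

open Classical in
/-- The intersection number of a `ν`-regular graph is at most the bound. -/
theorem capNum_le (hn : 2 ≤ Fintype.card V) (G : SimpleGraph V) (hG : IsNuRegular G) :
    capNum G ≤ (Fintype.card V - 1) * (2 * nu G / (Fintype.card V - 1)).choose 2 +
      (2 * nu G / (Fintype.card V - 1)) * (2 * nu G % (Fintype.card V - 1)) := by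
  obtain ⟨u, hu, hdeg⟩ := hG
  have hle : star u ≤ G := by
    intro a b hab
    rcases hab with ⟨hab, rfl | rfl⟩
    · exact hu b hab.symm
    · exact (hu a hab).symm
  have h1 : capNum G ≤ capTree G (star u) := by
    apply Nat.sInf_le
    exact ⟨star u, hle, star_isTree u, rfl⟩
  refine h1.trans ((capTree_star_le G u hu).trans ?_)
  set q := 2 * nu G / (Fintype.card V - 1) with hq
  have hd : ∀ v, G.degree v = (G.neighborSet v).ncard := by
    intro v
    rw [← card_neighborSet_eq_degree, Set.ncard_eq_toFinset_card', Set.toFinset_card]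
  have hcard : (Finset.univ.erase u).card = Fintype.card V - 1 := by
    rw [Finset.card_erase_of_mem (Finset.mem_univ u), Finset.card_univ]
  -- the handshake
  have hhs := G.sum_degrees_eq_twice_card_edges
  rw [← Finset.add_sum_erase _ _ (Finset.mem_univ u)] at hhs
  have hdu : G.degree u = Fintype.card V - 1 := by
    rw [← card_neighborFinset_eq_degree, ← hcard]
    congr 1
    ext v
    rw [mem_neighborFinset, Finset.mem_erase]
    exact ⟨fun h => ⟨h.ne', Finset.mem_univ _⟩, fun h => hu v h.1⟩
  have hm : G.edgeSet.ncard = G.edgeFinset.card := by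
    rw [Set.ncard_eq_toFinset_card']
    rfl
  rw [hdu, ← hm] at hhs
  simp only [hd] at hhs
  have hpos : ∀ v ∈ Finset.univ.erase u, 1 ≤ (G.neighborSet v).ncard := by
    intro v hv
    rcases hdeg v (Finset.ne_of_mem_erase hv) with h | h <;> rw [h] <;> simp
  have hsum : ∑ v ∈ Finset.univ.erase u, ((G.neighborSet v).ncard - 1) = 2 * nu G := by
    have h2 : ∑ v ∈ Finset.univ.erase u, ((G.neighborSet v).ncard - 1) +
        (Finset.univ.erase u).card = ∑ v ∈ Finset.univ.erase u, (G.neighborSet v).ncard := by
      rw [Finset.card_eq_sum_ones, ← Finset.sum_add_distrib]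
      exact Finset.sum_congr rfl (fun v hv => Nat.sub_add_cancel (hpos v hv))
    have h3 : (Finset.univ.erase u).card ≤ ∑ v ∈ Finset.univ.erase u,
        (G.neighborSet v).ncard := by
      rw [Finset.card_eq_sum_ones]
      exact Finset.sum_le_sum hpos
    unfold nu
    rw [hcard] at h2 h3
    omega
  have hval : ∀ v ∈ Finset.univ.erase u, (((G.neighborSet v).ncard - 1).choose 2 : ℤ) =
      (q.choose 2 : ℤ) + q * ((((G.neighborSet v).ncard - 1 : ℕ) : ℤ) - q) := by
    intro v hv
    apply choose_two_eq
    rcases hdeg v (Finset.ne_of_mem_erase hv) with h | h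
    · left
      rw [h]
      simp
    · right
      rw [h]
      simp
  have hfin : (∑ v ∈ Finset.univ.erase u, (((G.neighborSet v).ncard - 1).choose 2 : ℤ)) =
      ((Fintype.card V - 1 : ℕ) : ℤ) * (q.choose 2 : ℤ) +
        (q : ℤ) * ((2 * nu G % (Fintype.card V - 1) : ℕ) : ℤ) := by
    rw [Finset.sum_congr rfl hval, Finset.sum_add_distrib, ← Finset.mul_sum,
      Finset.sum_sub_distrib, Finset.sum_const, Finset.sum_const, hcard]
    have h4 : (∑ v ∈ Finset.univ.erase u, (((G.neighborSet v).ncard - 1 : ℕ) : ℤ)) =
        (2 * nu G : ℕ) := by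
      exact_mod_cast hsum
    rw [h4]
    have h5 := Nat.div_add_mod (2 * nu G) (Fintype.card V - 1)
    rw [← hq] at h5
    have h6 : (((Fintype.card V - 1) * q + 2 * nu G % (Fintype.card V - 1) : ℕ) : ℤ) =
        ((2 * nu G : ℕ) : ℤ) := by exact_mod_cast h5
    rw [← h6]
    simp only [nsmul_eq_mul]
    push_cast
    ring
  have hfin' : (∑ v ∈ Finset.univ.erase u, ((G.neighborSet v).ncard - 1).choose 2) =
      (Fintype.card V - 1) * q.choose 2 + q * (2 * nu G % (Fintype.card V - 1)) := by
    exact_mod_cast hfin
  exact hfin'.le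

end upper

/-- **Full answer to Q1 (the conjecture is true).** A `ν`-regular graph has the least
intersection number among the connected graphs with the same numbers of vertices and edges.
Moreover every connected graph `H` with `2ν = q(n-1) + r`, `0 ≤ r < n-1`, has intersection
number at least `(n-1) C(q,2) + q r`. -/
theorem result :
    (∀ (V W : Type) [Fintype V] [Fintype W] (G : SimpleGraph V) (H : SimpleGraph W),
      2 ≤ Fintype.card V → IsNuRegular G → H.Connected →
      Fintype.card W = Fintype.card V → H.edgeSet.ncard = G.edgeSet.ncard →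
      capNum G ≤ capNum H) ∧
    (∀ (W : Type) [Fintype W] (H : SimpleGraph W) (q r : ℕ), H.Connected →
      r < Fintype.card W - 1 → 2 * nu H = q * (Fintype.card W - 1) + r →
      (Fintype.card W - 1) * q.choose 2 + q * r ≤ capNum H) := by
  constructor
  · intro V W _ _ G H hn hG hH hV hE
    have h1 := capNum_le hn G hG
    have h2 := capNum_ge H hH
    have h3 : nu H = nu G := by
      unfold nu
      rw [hV, hE]
    rw [hV, h3] at h2
    exact h1.trans h2
  · intro W _ H q r hH hr h
    have h2 := capNum_ge H hH
    have hq : 2 * nu H / (Fintype.card W - 1) = q := by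
      rw [h, Nat.add_comm, Nat.add_mul_div_right _ _ (by omega), Nat.div_eq_of_lt hr, zero_add]
    have hr' : 2 * nu H % (Fintype.card W - 1) = r := by
      rw [h, Nat.add_comm, Nat.add_mul_mod_self_right, Nat.mod_eq_of_lt hr]
    rw [hq, hr'] at h2
    exact h2

end Pool.Agent.Results.MP_648063_co.NuRegularMinimal
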